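import Pool.Agent.H655.UR.Back

/-! Gromov–Hausdorff distance versus the Urysohn orbit pseudometric. -/

namespace Pool.Agent.Results.MP_d52b88_lc.GHOrbit

open Pool.Agent.H655.UR

/-- The Gromov–Hausdorff distance `rhoGH` on the space `Met` of metrics on `ℕ` and the orbit
pseudometric `rhoOrb U` on the space of closed subsets of the Urysohn space `U` are
Borel-uniformly continuous bi-reducible. The Urysohn space exists and is unique up to isometry. -/
theorem result :
    (∃ (U : Type) (_ : MetricSpace U), IsUrysohn U) ∧
      (∀ (U V : Type) [MetricSpace U] [MetricSpace V], IsUrysohn U → IsUrysohn V →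
        Nonempty (U ≃ᵢ V)) ∧
      ∀ (U : Type) [MetricSpace U], IsUrysohn U →
        BURed (borel Met) (effros U) rhoGH (rhoOrb U) ∧
          BURed (effros U) (borel Met) (rhoOrb U) rhoGH := by
  refine ⟨exists_urysohn, fun U V _ _ hU hV => urysohn_unique hU hV, fun U _ hU => ?_⟩
  have h1 := hU.complete
  have h2 := hU.separable
  have h3 : Nonempty U := by
    obtain ⟨u, -⟩ := extP_of_urysohn hU [] (by intro p hp; simp at hp)
    exact ⟨u⟩
  exact ⟨main U hU, main_rev U⟩

end Pool.Agent.Results.MP_d52b88_lc.GHOrbit
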